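import Pool.Agent.E8helper2.PS.Stm

/-! # Project PS: Cauchy's theorem on a rectangle -/

set_option autoImplicit false

open MeasureTheory Filter Topology

namespace Pool.Agent.E8helper37.PS

open Pool.Agent.E8helper2.PS

/-- **S_BOX** -/
theorem t_BOX (h1 : S_CONT) (h2 : S_ABEL) : S_BOX := by
  intro c M κ κ' t t' hc hw hw' hκ ht htt
  have hd := (h1 c M hc).1
  have hsub : (Set.uIcc (⟨κ, t⟩ : ℂ).re (⟨κ', t'⟩ : ℂ).re) ×ℂ
      (Set.uIcc (⟨κ, t⟩ : ℂ).im (⟨κ', t'⟩ : ℂ).im) ⊆ {w : ℂ | 0 < w.im} := by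
    intro w hw0
    rw [Complex.mem_reProdIm] at hw0
    have h3 := hw0.2
    rw [Set.uIcc_of_le htt] at h3
    exact lt_of_lt_of_le ht h3.1
  have H := Complex.integral_boundary_rect_eq_zero_of_differentiableOn (Phi c) ⟨κ, t⟩ ⟨κ', t'⟩
    (hd.mono hsub)
  have b : ∀ k : ℝ, Win c M k → ‖Complex.I • ∫ y : ℝ in t..t', Phi c ((k : ℂ) + y * Complex.I)‖ ≤
      M * (t' - t) := by
    intro k hk
    rw [norm_smul, Complex.norm_I, one_mul]
    have h4 : ∀ y ∈ Set.uIoc t t', ‖Phi c ((k : ℂ) + y * Complex.I)‖ ≤ M := by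
      intro y hy
      rw [Set.uIoc_of_le htt] at hy
      exact h2 c M k y hk (ht.trans hy.1)
    have h5 := intervalIntegral.norm_integral_le_of_norm_le_const h4
    rwa [abs_of_nonneg (by linarith)] at h5
  have b1 := b κ hw
  have b2 := b κ' hw'
  have e : (∫ θ in κ..κ', Phi c ((θ : ℂ) + t * Complex.I)) -
      ∫ θ in κ..κ', Phi c ((θ : ℂ) + t' * Complex.I) =
      (Complex.I • ∫ y : ℝ in t..t', Phi c ((κ : ℂ) + y * Complex.I)) -
        Complex.I • ∫ y : ℝ in t..t', Phi c ((κ' : ℂ) + y * Complex.I) := by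
    linear_combination H
  rw [e]
  refine (norm_sub_le _ _).trans ?_
  linarith

end Pool.Agent.E8helper37.PS
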